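import Pool.Agent.Helper15.T4.Stmts

set_option autoImplicit false

open Finset MeasureTheory Filter Topology

namespace Pool.Agent.Helper57.T4

open Pool.Agent.Helper15.T4

/-- isolated -/
def Iso {n : ℕ} (m : ℕ) (M : Finset (Sym2 (HE n))) (C : Finset (Sym2 (HE n))) : Prop :=
  ∀ k' < m, ∀ C' ∈ Cyc n k', C' ⊆ M → C' ≠ C → Disjoint (tv C) (tv C')

open Classical in
/-- the isolated cycles -/
noncomputable def ZS {n : ℕ} (m k : ℕ) (M : Finset (Sym2 (HE n))) : Finset (Finset (Sym2 (HE n))) :=
  (Cyc n k).filter (fun C => C ⊆ M ∧ Iso m M C)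

theorem Zs_eq {n : ℕ} (m k : ℕ) (M : Finset (Sym2 (HE n))) : Zs m k M = (ZS m k M).card := rfl

abbrev II (m : ℕ) (j : Fin m → ℕ) : Type := Σ k : Fin m, Fin (j k)

abbrev kap {m : ℕ} {j : Fin m → ℕ} (i : II m j) : ℕ := (i.1 : ℕ)

open Classical in
/-- families of isolated cycles -/
noncomputable def TF (n m : ℕ) (j : Fin m → ℕ) (M : Finset (Sym2 (HE n))) :
    Finset (II m j → Finset (Sym2 (HE n))) :=
  univ.filter (fun F => (∀ i, F i ∈ ZS m (kap i) M) ∧
    ∀ k, Function.Injective (fun r : Fin (j k) => F ⟨k, r⟩))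

theorem card_TF (n m : ℕ) (j : Fin m → ℕ) (M : Finset (Sym2 (HE n))) :
    (TF n m j M).card = ∏ k : Fin m, (Zs m k M).descFactorial (j k) := by
  classical
  have e : {F // F ∈ TF n m j M} ≃ ((k : Fin m) → (Fin (j k) ↪ {C // C ∈ ZS m k M})) :=
    { toFun := fun F k =>
        ⟨fun r => ⟨F.1 ⟨k, r⟩, (mem_filter.1 F.2).2.1 ⟨k, r⟩⟩, fun r s hrs =>
          (mem_filter.1 F.2).2.2 k (congrArg Subtype.val hrs)⟩
      invFun := fun G => ⟨fun i => (G i.1 i.2).1, by
        rw [TF, mem_filter]
        refine ⟨mem_univ _, fun i => (G i.1 i.2).2, fun k r s hrs => ?_⟩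
        exact (G k).injective (Subtype.ext hrs)⟩
      left_inv := fun F => by
        apply Subtype.ext
        rfl
      right_inv := fun G => by
        funext k
        apply Function.Embedding.ext
        intro r
        rfl }
  rw [← Fintype.card_coe, Fintype.card_congr e, Fintype.card_pi]
  refine prod_congr rfl fun k _ => ?_
  rw [Fintype.card_embedding_eq, Fintype.card_fin, Fintype.card_coe, Zs_eq]

open Classical in
/-- good families -/
noncomputable def GS (n m : ℕ) (j : Fin m → ℕ) (M : Finset (Sym2 (HE n))) :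
    Finset ((i : II m j) → CycD n (kap i)) :=
  univ.filter (fun c => DisjFam c ∧ EU c ⊆ M ∧ ∀ i, Iso m M (E (c i)))

theorem vs_nonempty {n k : ℕ} (c : CycD n k) : (vs c).Nonempty :=
  ⟨(c 0).1, by classical exact mem_image.2 ⟨0, mem_univ _, rfl⟩⟩

theorem card_GS (hS : ST_STR) (hFIB : ST_FIB) (n m : ℕ) (j : Fin m → ℕ)
    (M : Finset (Sym2 (HE n))) : (GS n m j M).card =
      (∏ k : Fin m, (2 * ((k : ℕ) + 1)) ^ (j k)) *
        ∏ k : Fin m, (Zs m k M).descFactorial (j k) := by
  classical
  have hmap : ∀ c ∈ GS n m j M, (fun i => E (c i)) ∈ TF n m j M := by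
    intro c hc
    rw [GS, mem_filter] at hc
    obtain ⟨-, ⟨hv, hd⟩, hM, hI⟩ := hc
    rw [TF, mem_filter]
    refine ⟨mem_univ _, fun i => ?_, fun k r s hrs => ?_⟩
    · rw [ZS, mem_filter]
      refine ⟨?_, ?_, hI i⟩
      · rw [Cyc, mem_image]
        exact ⟨c i, mem_filter.2 ⟨mem_univ _, hv i⟩, rfl⟩
      · refine Subset.trans ?_ hM
        exact subset_biUnion_of_mem (fun i => E (c i)) (mem_univ i)
    · by_contra hne
      have hne' : (⟨k, r⟩ : II m j) ≠ ⟨k, s⟩ := by
        intro h
        apply hne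
        simpa using h
      have h1 := hd _ _ hne'
      have h2 := (hS n _ (c ⟨k, r⟩) (hv _)).2.2.1
      have h3 := (hS n _ (c ⟨k, s⟩) (hv _)).2.2.1
      have h4 : vs (c ⟨k, r⟩) = vs (c ⟨k, s⟩) := by
        rw [← h2, ← h3]
        exact congrArg tv hrs
      rw [h4, disjoint_self] at h1
      exact (vs_nonempty (c ⟨k, s⟩)).ne_empty h1
  rw [card_eq_sum_card_fiberwise (f := fun (c : (i : II m j) → CycD n (kap i)) =>
    (fun i => E (c i))) (t := TF n m j M) hmap]
  have hfib : ∀ F ∈ TF n m j M, ((GS n m j M).filter (fun c => (fun i => E (c i)) = F)).card =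
      ∏ k : Fin m, (2 * ((k : ℕ) + 1)) ^ (j k) := by
    intro F hF
    rw [TF, mem_filter] at hF
    obtain ⟨-, hF1, hF2⟩ := hF
    have hZ : ∀ i, F i ∈ Cyc n (kap i) ∧ F i ⊆ M ∧ Iso m M (F i) := fun i => by
      have := hF1 i
      rw [ZS, mem_filter] at this
      exact ⟨this.1, this.2.1, this.2.2⟩
    have heq : (GS n m j M).filter (fun c => (fun i => E (c i)) = F) =
        Fintype.piFinset (fun i : II m j =>
          (univ.filter (fun c : CycD n (kap i) => Valid c ∧ E c = F i))) := by
      ext c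
      rw [mem_filter, GS, mem_filter, Fintype.mem_piFinset]
      constructor
      · rintro ⟨⟨-, ⟨hv, -⟩, -, -⟩, hE⟩ i
        rw [mem_filter]
        exact ⟨mem_univ _, hv i, congrFun hE i⟩
      · intro h
        have h' : ∀ i, Valid (c i) ∧ E (c i) = F i := fun i => (mem_filter.1 (h i)).2
        refine ⟨⟨mem_univ _, ⟨fun i => (h' i).1, ?_⟩, ?_, ?_⟩, funext fun i => (h' i).2⟩
        · intro i i' hne
          have h1 := (hS n _ (c i) (h' i).1).2.2.1
          have h2 := (hS n _ (c i') (h' i').1).2.2.1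
          have hFne : F i' ≠ F i := by
            intro hFF
            obtain ⟨k, r⟩ := i
            obtain ⟨k', r'⟩ := i'
            have hkk : k = k' := by
              have c1 := (hS n _ (c ⟨k, r⟩) (h' _).1).2.1
              have c2 := (hS n _ (c ⟨k', r'⟩) (h' _).1).2.1
              rw [(h' _).2] at c1 c2
              rw [hFF, c1] at c2
              exact Fin.ext (by simpa [kap] using c2)
            subst hkk
            have := hF2 k hFF
            exact hne (by rw [this])
          have h3 := (hZ i).2.2 (kap i') i'.1.2 (F i') (hZ i').1 (hZ i').2.1 hFne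
          rw [← (h' i).2, ← (h' i').2, h1, h2] at h3
          exact h3
        · intro e he
          rw [EU, mem_biUnion] at he
          obtain ⟨i, -, hi⟩ := he
          rw [(h' i).2] at hi
          exact (hZ i).2.1 hi
        · intro i
          rw [(h' i).2]
          exact (hZ i).2.2
    rw [heq, Fintype.card_piFinset]
    have hcard : ∀ i : II m j, (univ.filter (fun c : CycD n (kap i) =>
        Valid c ∧ E c = F i)).card = 2 * (kap i + 1) := by
      intro i
      have := hFIB n (kap i) (F i) (hZ i).1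
      rw [← this, ← Set.ncard_coe_finset]
      congr 1
      ext c
      simp
    rw [prod_congr rfl (fun i _ => hcard i), Fintype.prod_sigma]
    refine prod_congr rfl fun k _ => ?_
    simp only [kap]
    rw [prod_const, card_univ, Fintype.card_fin]
  rw [sum_congr rfl hfib, sum_const, smul_eq_mul, card_TF, mul_comm]

open Classical in
/-- all families -/
noncomputable def DF (n m : ℕ) (j : Fin m → ℕ) : Finset ((i : II m j) → CycD n (kap i)) :=
  univ.filter (fun c => DisjFam c)

open Classical in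
/-- pairs as in ERR -/
noncomputable def PR (n m : ℕ) (j : Fin m → ℕ) (k : ℕ) (M : Finset (Sym2 (HE n))) :
    Finset (((i : II m j) → CycD n (kap i)) × CycD n k) :=
  univ.filter (fun p => DisjFam p.1 ∧ Valid p.2 ∧
        (∀ i, E p.2 ≠ E (p.1 i)) ∧ ¬ Disjoint (vs p.2) (tv (EU p.1)) ∧ EU p.1 ⊆ M ∧
        E p.2 ⊆ M)

open Classical in
theorem diff_le (hS : ST_STR) (hSU : ST_STRU) (n m : ℕ) (j : Fin m → ℕ)
    (M : Finset (Sym2 (HE n))) :
    ((DF n m j).filter (fun c => EU c ⊆ M)).card ≤
      (GS n m j M).card + ∑ k : Fin m, (PR n m j k M).card := by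
  have hsub : (DF n m j).filter (fun c => EU c ⊆ M) ⊆ GS n m j M ∪
      (univ : Finset (Fin m)).biUnion (fun k => (PR n m j k M).image Prod.fst) := by
    intro c hc
    rw [mem_filter, DF, mem_filter] at hc
    obtain ⟨⟨-, hD⟩, hM⟩ := hc
    rw [mem_union]
    by_cases hI : ∀ i, Iso m M (E (c i))
    · left
      rw [GS, mem_filter]
      exact ⟨mem_univ _, hD, hM, hI⟩
    · right
      rw [not_forall] at hI
      obtain ⟨i, hi⟩ := hI
      unfold Iso at hi
      push Not at hi
      obtain ⟨k', hk', C', hC', hC'M, hne, hnd⟩ := hi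
      rw [Cyc, mem_image] at hC'
      obtain ⟨c', hc', rfl⟩ := hC'
      have hv' := (mem_filter.1 hc').2
      rw [mem_biUnion]
      refine ⟨⟨k', hk'⟩, mem_univ _, mem_image.2 ⟨(c, c'), ?_, rfl⟩⟩
      have t1 := (hS n _ (c i) (hD.1 i)).2.2.1
      have t2 := (hS n _ c' hv').2.2.1
      rw [PR, mem_filter]
      refine ⟨mem_univ _, hD, hv', ?_, ?_, hM, hC'M⟩
      · intro i' heq
        by_cases hii : i' = i
        · subst hii
          exact hne heq
        · apply hnd
          change E c' = E (c i') at heq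
          rw [heq, t1, (hS n _ (c i') (hD.1 i')).2.2.1]
          exact hD.2 i i' (fun h => hii h.symm)
      · intro hdis
        apply hnd
        rw [t1, t2]
        rw [disjoint_left] at hdis ⊢
        intro v hv1 hv2
        refine hdis hv2 ?_
        exact ((hSU n _ _ c hD).2.2.2.1 v).2 ⟨i, hv1⟩
  refine (card_le_card hsub).trans ((card_union_le _ _).trans ?_)
  refine Nat.add_le_add_left ?_ _
  refine card_biUnion_le.trans (sum_le_sum fun k _ => card_image_le)

open Classical in
theorem GS_le (n m : ℕ) (j : Fin m → ℕ) (M : Finset (Sym2 (HE n))) :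
    (GS n m j M).card ≤ ((DF n m j).filter (fun c => EU c ⊆ M)).card := by
  refine card_le_card ?_
  intro c hc
  rw [GS, mem_filter] at hc
  rw [mem_filter, DF, mem_filter]
  exact ⟨⟨mem_univ _, hc.2.1⟩, hc.2.2.1⟩

open Classical in
theorem sum_A {n m : ℕ} (j : Fin m → ℕ) (W : Finset (Sym2 (HE n)) → ℝ) :
    ∑ M ∈ PM (univ : Finset (HE n)), W M *
      (((DF n m j).filter (fun c => EU c ⊆ M)).card : ℝ) =
    ∑ c ∈ DF n m j, mass W (EU c) := by
  have h1 : ∀ M ∈ PM (univ : Finset (HE n)), W M *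
      (((DF n m j).filter (fun c => EU c ⊆ M)).card : ℝ) =
      ∑ c ∈ DF n m j, if EU c ⊆ M then W M else 0 := by
    intro M _
    rw [card_filter, Nat.cast_sum, mul_sum]
    refine sum_congr rfl fun c _ => ?_
    split_ifs <;> simp
  rw [sum_congr rfl h1, sum_comm]
  refine sum_congr rfl fun c _ => ?_
  rw [mass, sum_filter]

theorem FM (hS : ST_STR) (hSU : ST_STRU) (hCNT : ST_CNT) (hFIB : ST_FIB) (hERR : ST_ERR) :
    ST_FM := by
  classical
  intro W τ hW m j
  obtain ⟨ρ, hρ, hρ2⟩ := hW.cyc (II m j) (fun i => kap i)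
  set f := ∑ i : II m j, (kap i + 1) with hf
  -- the total over all families
  have hA : Tendsto (fun N : ℕ => ∑ c ∈ DF (2 * N) m j, mass (W N) (EU c)) atTop
      (𝓝 (6 ^ f * ∏ i : II m j, τ (kap i) / 3 ^ (kap i + 1))) := by
    have h1 : Tendsto (fun N : ℕ => ((2 * N).descFactorial f : ℝ) / (2 * (N : ℝ)) ^ f) atTop
        (𝓝 1) := by
      have h2 := isEquivalent_descFactorial f
      have h3 : Tendsto (fun N : ℕ => 2 * N) atTop atTop :=
        tendsto_id.const_mul_atTop' (by norm_num)
      have h4 := h2.comp_tendsto h3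
      have h5 : ∀ᶠ N : ℕ in atTop, ((fun n : ℕ => (n : ℝ) ^ f) ∘ (fun N : ℕ => 2 * N)) N ≠ 0 := by
        filter_upwards [eventually_gt_atTop 0] with N hN
        simp only [Function.comp]
        positivity
      have h6 := (Asymptotics.isEquivalent_iff_tendsto_one h5).1 h4
      refine h6.congr fun N => ?_
      simp [Function.comp]
    have h2 : Tendsto (fun N : ℕ => 6 ^ f * (((2 * N).descFactorial f : ℝ) / (2 * (N : ℝ)) ^ f) *
        (ρ N * (2 * (N : ℝ)) ^ f)) atTop
        (𝓝 (6 ^ f * 1 * ∏ i : II m j, τ (kap i) / 3 ^ (kap i + 1))) :=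
      (h1.const_mul (6 ^ f)).mul hρ
    rw [mul_one] at h2
    refine h2.congr' ?_
    filter_upwards [hρ2, eventually_gt_atTop 0] with N hN hN0
    have hDc : ((DF (2 * N) m j).card : ℝ) = ((2 * N).descFactorial f : ℝ) * 6 ^ f := by
      have := hCNT (2 * N) (II m j) (fun i => kap i)
      have h7 : (DF (2 * N) m j).card = {c : (i : II m j) → CycD (2 * N) (kap i) |
          DisjFam c}.ncard := by
        rw [← Set.ncard_coe_finset]
        congr 1
        ext c
        simp [DF]
      rw [h7, this]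
      push_cast
      rfl
    have h8 : ∀ c ∈ DF (2 * N) m j, mass (W N) (EU c) = ρ N := fun c hc =>
      hN c (mem_filter.1 hc).2
    rw [sum_congr rfl h8, sum_const, nsmul_eq_mul, hDc]
    have : (2 * (N : ℝ)) ^ f ≠ 0 := by positivity
    field_simp
  -- the error
  have hB : Tendsto (fun N : ℕ => ∑ k : Fin m, ∑ M ∈ PM (univ : Finset (HE (2 * N))),
      W N M * ((PR (2 * N) m j k M).card : ℝ)) atTop (𝓝 0) := by
    rw [show (0 : ℝ) = ∑ k : Fin m, (0 : ℝ) by simp]
    refine tendsto_finsetSum _ fun k _ => ?_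
    obtain ⟨C, hC⟩ := hERR W hW.nonneg hW.bd (II m j) (fun i => kap i) k
    have h0 : Tendsto (fun N : ℕ => C / (N : ℝ)) atTop (𝓝 0) :=
      tendsto_const_div_atTop_nhds_zero_nat C
    refine tendsto_of_tendsto_of_tendsto_of_le_of_le' tendsto_const_nhds h0 ?_ ?_
    · refine Eventually.of_forall fun N => ?_
      exact sum_nonneg fun M _ => mul_nonneg (hW.nonneg N M) (Nat.cast_nonneg _)
    · filter_upwards [hC] with N hN
      refine le_trans (le_of_eq ?_) hN
      refine sum_congr rfl fun M _ => ?_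
      congr 2
      rw [← Set.ncard_coe_finset]
      congr 1
      ext p
      simp [PR]
  -- main
  set c0 : ℝ := ∏ k : Fin m, (2 * ((k : ℝ) + 1)) ^ (j k) with hc0
  have hc0pos : 0 < c0 := by
    rw [hc0]
    exact prod_pos fun k _ => by positivity
  have hlim : 6 ^ f * ∏ i : II m j, τ (kap i) / 3 ^ (kap i + 1) =
      c0 * ∏ k : Fin m, (lam k * τ k) ^ (j k) := by
    have h1 : (6 : ℝ) ^ f * ∏ i : II m j, τ (kap i) / 3 ^ (kap i + 1) =
        ∏ i : II m j, (2 ^ (kap i + 1) * τ (kap i)) := by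
      rw [hf, ← prod_pow_eq_pow_sum, ← prod_mul_distrib]
      refine prod_congr rfl fun i _ => ?_
      rw [show (6 : ℝ) = 2 * 3 by norm_num, mul_pow]
      field_simp
    rw [h1, hc0, ← prod_mul_distrib, Fintype.prod_sigma]
    refine prod_congr rfl fun k _ => ?_
    simp only [kap]
    rw [prod_const, card_univ, Fintype.card_fin, ← mul_pow, lam]
    congr 1
    field_simp
  rw [hlim] at hA
  have hfin : Tendsto (fun N : ℕ => c0 * ∑ M ∈ PM (univ : Finset (HE (2 * N))),
      W N M * ((∏ k : Fin m, (Zs m k M).descFactorial (j k) : ℕ) : ℝ)) atTop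
      (𝓝 (c0 * ∏ k : Fin m, (lam k * τ k) ^ (j k))) := by
    have hlow : Tendsto (fun N : ℕ => ∑ c ∈ DF (2 * N) m j, mass (W N) (EU c) -
        ∑ k : Fin m, ∑ M ∈ PM (univ : Finset (HE (2 * N))),
      W N M * ((PR (2 * N) m j k M).card : ℝ)) atTop
      (𝓝 (c0 * ∏ k : Fin m, (lam k * τ k) ^ (j k) - 0)) := hA.sub hB
    rw [sub_zero] at hlow
    have hG : ∀ N : ℕ, c0 * ∑ M ∈ PM (univ : Finset (HE (2 * N))),
        W N M * ((∏ k : Fin m, (Zs m k M).descFactorial (j k) : ℕ) : ℝ) =
        ∑ M ∈ PM (univ : Finset (HE (2 * N))), W N M * ((GS (2 * N) m j M).card : ℝ) := by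
      intro N
      rw [mul_sum]
      refine sum_congr rfl fun M _ => ?_
      rw [card_GS hS hFIB, Nat.cast_mul, hc0]
      push_cast
      ring
    refine tendsto_of_tendsto_of_tendsto_of_le_of_le hlow hA ?_ ?_
    · intro N
      simp only
      rw [hG N, ← sum_A j (W N), sum_comm, ← sum_sub_distrib]
      refine sum_le_sum fun M _ => ?_
      rw [← mul_sum, ← mul_sub]
      refine mul_le_mul_of_nonneg_left ?_ (hW.nonneg N M)
      have := diff_le hS hSU (2 * N) m j M
      have h9 : (((DF (2 * N) m j).filter (fun c => EU c ⊆ M)).card : ℝ) ≤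
          (GS (2 * N) m j M).card + ∑ k : Fin m, ((PR (2 * N) m j k M).card : ℝ) := by
        exact_mod_cast this
      linarith
    · intro N
      simp only
      rw [hG N, ← sum_A j (W N)]
      refine sum_le_sum fun M _ => mul_le_mul_of_nonneg_left ?_ (hW.nonneg N M)
      exact_mod_cast GS_le (2 * N) m j M
  have := hfin.const_mul (c0⁻¹)
  rw [← mul_assoc, inv_mul_cancel₀ hc0pos.ne', one_mul] at this
  refine this.congr fun N => ?_
  rw [← mul_assoc, inv_mul_cancel₀ hc0pos.ne', one_mul]

end Pool.Agent.Helper57.T4
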